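import Pool.Agent.H7.LP.Targets

/-!
# MP_5607ba_lc, row ADM of lpg_modules: admissible quotients
-/

set_option autoImplicit false

open Set Filter Topology

namespace Pool.Agent.H91.LP

open Pool.Agent.H7.LP

theorem pf_ADM : T_ADM := by
  intro G X _ _ _ _ L M _ Y S q' q a g' g hA hg' hg
  have hH' : g' ∈ L.H (S.k q') := ((mem_Stb).1 (S.le q' hg')).1
  have hH : g ∈ L.H (S.k q) := ((mem_Stb).1 (S.le q hg)).1
  have key : ∀ u : G, (g' * a * g)⁻¹ * u * (g' * a * g) =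
      g⁻¹ * (a⁻¹ * (g'⁻¹ * u * g') * a) * g := fun u => by group
  refine ⟨⟨fun u hu => ?_, fun u hu => ?_, fun u hu => ?_⟩, ?_⟩
  · rw [key]
    have h1 : g'⁻¹ * u * g' ∈ S.K q' :=
      (S.K q').mul_mem ((S.K q').mul_mem ((S.K q').inv_mem hg') hu) hg'
    exact (S.K q).mul_mem ((S.K q).mul_mem ((S.K q).inv_mem hg) (hA.mK _ h1)) hg
  · rw [key]
    have h1 : g'⁻¹ * u * g' ∈ L.R (S.k q') := by
      have := (L.piece (S.k q')).nor g'⁻¹ ((L.H _).inv_mem hH') u hu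
      rwa [inv_inv] at this
    have h2 := (L.piece (S.k q)).nor g⁻¹ ((L.H _).inv_mem hH) _ (hA.mR _ h1)
    rwa [inv_inv] at h2
  · rw [key]
    have h1 : g'⁻¹ * u * g' ∈ L.H (S.k q') :=
      (L.H _).mul_mem ((L.H _).mul_mem ((L.H _).inv_mem hH') hu) hH'
    exact (L.H _).mul_mem ((L.H _).mul_mem ((L.H _).inv_mem hH) (hA.mH _ h1)) hH
  · have h1 : a⁻¹ * (g' * a * g) = (a⁻¹ * g' * a) * g := by group
    rw [h1]
    exact (S.K q).mul_mem (hA.mK g' hg') hg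

end Pool.Agent.H91.LP
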