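import Pool.Agent.H7.LP.Targets

/-!
# MP_5607ba_lc, row BAD of lpg_modules: admissible quotients form a Borel set
-/

set_option autoImplicit false

open Set Filter Topology

namespace Pool.Agent.H91.LP

open Pool.Agent.H7.LP

theorem pf_BAD (h1 : T_LAB) (h2 : T_OCL) : T_BAD := by
  intro G X _ _ _ _ _ _ L M _ Y S
  have hH : ∀ k, IsClosed (L.H k : Set G) := fun k =>
    Subgroup.isClosed_of_isOpen _ (L.piece k).op
  have hK : ∀ q, IsClosed (S.K q : Set G) := fun q =>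
    h2 G (S.K q) (Stb (L.H (S.k q)) (S.y q))
      ((h1 G).2.2.2.2.1 (L.H (S.k q)) (S.y q) (hH _) (S.ycl q)) (S.le q) (S.opn q)
  refine ⟨hK, fun q' q => ?_⟩
  have hcl : ∀ A C : Set G, IsClosed C → IsClosed {a : G | ∀ g ∈ A, a⁻¹ * g * a ∈ C} := by
    intro A C hC
    have h3 : {a : G | ∀ g ∈ A, a⁻¹ * g * a ∈ C} =
        ⋂ g ∈ A, (fun a : G => a⁻¹ * g * a) ⁻¹' C := by
      ext a
      simp
    rw [h3]
    refine isClosed_biInter fun g _ => hC.preimage ?_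
    fun_prop
  have h4 : {a : G | S.Adm q' q a} =
      {a : G | ∀ g ∈ (S.K q' : Set G), a⁻¹ * g * a ∈ (S.K q : Set G)} ∩
      ({a : G | ∀ g ∈ (L.R (S.k q') : Set G), a⁻¹ * g * a ∈ (L.R (S.k q) : Set G)} ∩
      {a : G | ∀ g ∈ (L.H (S.k q') : Set G), a⁻¹ * g * a ∈ (L.H (S.k q) : Set G)}) := by
    ext a
    exact ⟨fun h => ⟨h.mK, h.mR, h.mH⟩, fun h => ⟨h.1, h.2.1, h.2.2⟩⟩
  rw [h4]
  exact ((hcl _ _ (hK q)).inter ((hcl _ _ (L.piece _).cl).inter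
    (hcl _ _ (hH _)))).measurableSet

end Pool.Agent.H91.LP
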