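import Pool.Agent.H7.LP.Targets

/-!
# MP_5607ba_lc, row CLA of lpg_modules: closedness of an equality of translated closed sets
-/

set_option autoImplicit false

open Set Filter Topology

namespace Pool.Agent.H91.LP

open Pool.Agent.H7.LP

theorem pf_CLA : T_CLA := by
  intro G X Z _ _ _ _ _ B A A' hB hA hA' hAU hAU'
  rw [← isOpen_compl_iff, isOpen_iff_mem_nhds]
  rintro ⟨⟨x, z⟩, h⟩ hp
  have hne : ¬ ({a | a * h ∈ A x} = A' z) := hp
  rw [Set.ext_iff] at hne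
  push Not at hne
  obtain ⟨a, ha | ha⟩ := hne
  · obtain ⟨ha1, ha2⟩ := ha
    have ha1' : a * h ∈ A x := ha1
    -- a basic neighbourhood of `a` which misses `A' z`
    obtain ⟨W, hWB, haW, hW⟩ := hB.exists_subset_of_mem_open
      (show a ∈ (A' z)ᶜ from ha2) (hA' z).isOpen_compl
    have hcont : Tendsto (fun q : G × G => q.1 * q.2⁻¹) (𝓝 (a * h) ×ˢ 𝓝 h) (𝓝 a) := by
      have h1 : Continuous fun q : G × G => q.1 * q.2⁻¹ := by fun_prop
      have h2 := h1.tendsto (a * h, h)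
      rw [nhds_prod_eq] at h2
      simpa using h2
    have hev := hcont.eventually (hB.mem_nhds hWB haW)
    rw [eventually_prod_iff] at hev
    obtain ⟨pU, hpU, pV, hpV, hUV⟩ := hev
    obtain ⟨U, hUB, haU, hU⟩ := hB.mem_nhds_iff.1 hpU
    have hS : {x' | (A x' ∩ U).Nonempty} ∈ 𝓝 x :=
      (hAU U hUB).2.mem_nhds ⟨a * h, ha1', haU⟩
    have hT : {z' | (A' z' ∩ W).Nonempty}ᶜ ∈ 𝓝 z := by
      refine (hAU' W hWB).1.isOpen_compl.mem_nhds ?_
      rintro ⟨b, hb1, hb2⟩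
      exact hW hb2 hb1
    refine mem_of_superset (prod_mem_nhds (prod_mem_nhds hS hT) hpV) ?_
    rintro ⟨⟨x', z'⟩, h'⟩ ⟨⟨hx', hz'⟩, hh'⟩ heq
    obtain ⟨b, hb1, hb2⟩ := hx'
    have h3 : b * h'⁻¹ ∈ W := hUV (hU hb2) hh'
    have h4 : b * h'⁻¹ ∈ {a | a * h' ∈ A x'} := by
      show b * h'⁻¹ * h' ∈ A x'
      rw [inv_mul_cancel_right]
      exact hb1
    have heq' : {a | a * h' ∈ A x'} = A' z' := heq
    rw [heq'] at h4
    exact hz' ⟨_, h4, h3⟩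
  · obtain ⟨ha1, ha2⟩ := ha
    have ha1' : a * h ∉ A x := ha1
    obtain ⟨U, hUB, haU, hU⟩ := hB.exists_subset_of_mem_open
      (show a * h ∈ (A x)ᶜ from ha1') (hA x).isOpen_compl
    have hcont : Tendsto (fun q : G × G => q.1 * q.2) (𝓝 a ×ˢ 𝓝 h) (𝓝 (a * h)) := by
      have h1 : Continuous fun q : G × G => q.1 * q.2 := by fun_prop
      have h2 := h1.tendsto (a, h)
      rw [nhds_prod_eq] at h2
      exact h2
    have hev := hcont.eventually (hB.mem_nhds hUB haU)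
    rw [eventually_prod_iff] at hev
    obtain ⟨pW, hpW, pV, hpV, hWV⟩ := hev
    obtain ⟨W, hWB, haW, hW⟩ := hB.mem_nhds_iff.1 hpW
    have hS : {x' | (A x' ∩ U).Nonempty}ᶜ ∈ 𝓝 x := by
      refine (hAU U hUB).1.isOpen_compl.mem_nhds ?_
      rintro ⟨b, hb1, hb2⟩
      exact hU hb2 hb1
    have hT : {z' | (A' z' ∩ W).Nonempty} ∈ 𝓝 z :=
      (hAU' W hWB).2.mem_nhds ⟨a, ha2, haW⟩
    refine mem_of_superset (prod_mem_nhds (prod_mem_nhds hS hT) hpV) ?_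
    rintro ⟨⟨x', z'⟩, h'⟩ ⟨⟨hx', hz'⟩, hh'⟩ heq
    obtain ⟨b, hb1, hb2⟩ := hz'
    have h3 : b * h' ∈ U := hWV (hW hb2) hh'
    have heq' : {a | a * h' ∈ A x'} = A' z' := heq
    rw [← heq'] at hb1
    exact hx' ⟨_, hb1, h3⟩

end Pool.Agent.H91.LP
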