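import Pool.Agent.H7.LP.Targets3

/-!
# MP_5607ba_lc, row SAQ of lpq_modules: the element `a`
Model: `Pool/Agent/H83/LP/SXA.lean` of helper83.
-/

set_option autoImplicit false

open Set Filter Topology

namespace Pool.Agent.H91.LP

open Pool.Agent.H93.CP Pool.Agent.H7.LP Pool.Agent.H7.LQ

theorem pf_SAQ (h1 : T_LBT) (h2 : T_KKA) (h3 : T_DIQ) (h4 : T_CVG) (h5 : T_SEQ) : T_SAQ := by
  intro G X _ _ _ _ _ _ B L M _ Y S sel F hsel hF x e w hc hs
  have hst : ∀ s, Step2 L sel w s (F w s).1 (F w s).2 (F w (s + 1)).1 (F w (s + 1)).2 := fun s =>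
    hF.step w s (h5 G X B L M Y S sel hsel x e w hc hs s _ _)
  refine ⟨hst, ?_⟩
  have hK : ∀ i, L.R (e i).1 ≤ KX B L Y (e i).1 (e i).2.1 x (e i).2.2 ∧
      KX B L Y (e i).1 (e i).2.1 x (e i).2.2 ≤ L.H (e i).1 ∧
      IsClosed (KX B L Y (e i).1 (e i).2.1 x (e i).2.2 : Set G) := by
    intro i
    obtain ⟨c1, c2, -, -⟩ := h1 G X L M Y (e i).1 x (e i).2.2
    obtain ⟨k1, k2, -, k4, -, -⟩ := h2 G B (L.R (e i).1) (L.H (e i).1)
      (lb L Y (e i).1 x (e i).2.2) (L.piece _) c1 c2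
    refine ⟨k1 _, fun g hg => ?_, k4 _⟩
    exact (mem_Stb.1 (k2 _ hg)).1
  refine h4 G L (fun s => (e (F w s).1).1)
    (fun s => KX B L Y (e (F w s).1).1 (e (F w s).1).2.1 x (e (F w s).1).2.2)
    (fun s => (e (F w s).1).2.2) (fun s => (F w s).2) (fun s => (hK _).1) (fun s => (hK _).2.1)
    (fun s => (hK _).2.2) (fun s => (hc.node _).2) (fun s => (hs.le _ _).1 (hst s).le)
    ?_ ?_ ?_
  · intro s
    obtain ⟨n, hn⟩ := (hst s).quo
    have hle := (hs.le _ _).1 (hst s).le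
    set q : G := (e (F w (s + 1)).1).2.2 * ((e (F w s).1).2.2)⁻¹ with hq
    set K : Subgroup G := KX B L Y (e (F w s).1).1 (e (F w s).1).2.1 x (e (F w s).1).2.2 with hKd
    have hcl : IsClosed {a : G | q⁻¹ * a ∈ K} :=
      (hK (F w s).1).2.2.preimage (continuous_const.mul continuous_id)
    have hne : ({a : G | q⁻¹ * a ∈ K}).Nonempty := by
      refine ⟨q, ?_⟩
      rw [mem_ofPred_eq, inv_mul_cancel]
      exact K.one_mem
    have hcode : ∀ p, (w.2 (F w (s + 1)).1 (F w s).1).2 p = true ↔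
        ({a : G | q⁻¹ * a ∈ K} ∩ B.U p).Nonempty := by
      intro p
      rw [hs.q]
      constructor
      · rintro ⟨-, u, hu, hu'⟩
        refine ⟨q * u, ?_, hu'⟩
        rw [mem_ofPred_eq, inv_mul_cancel_left]
        exact hu
      · rintro ⟨a, ha, ha'⟩
        refine ⟨hle, q⁻¹ * a, ha, ?_⟩
        show q * (q⁻¹ * a) ∈ B.U p
        rw [mul_inv_cancel_left]
        exact ha'
    have hmem := hsel.mem _ _ hcl hne hcode n
    show q⁻¹ * ((F w (s + 1)).2 * ((F w s).2)⁻¹) ∈ K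
    rw [hn, mul_inv_cancel_right]
    exact hmem
  · intro U hU
    obtain ⟨m, hm⟩ := L.small U hU
    obtain ⟨l, l1, l2, -, -⟩ := h3 G X B L M Y S x e w hc hs 0 0 m
    rw [hs.k l] at l1 l2
    have hle := (hs.le _ _).1 (hst l).cof
    refine ⟨l + 1, fun r hr => hm _ ?_⟩
    have h6 := hle.mR r hr
    have h7 := (L.piece (e l).1).nor ((e l).2.2)⁻¹ ((L.H (e l).1).inv_mem l2) _ h6
    have h8 : ((e l).2.2)⁻¹ * (((e (F w (l + 1)).1).2.2 * ((e l).2.2)⁻¹)⁻¹ * r *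
        ((e (F w (l + 1)).1).2.2 * ((e l).2.2)⁻¹)) * ((e l).2.2)⁻¹⁻¹ =
        ((e (F w (l + 1)).1).2.2)⁻¹ * r * (e (F w (l + 1)).1).2.2 := by
      group
    rw [h8] at h7
    exact antitone_nat_of_succ_le L.antR l1 h7
  · intro U hU
    obtain ⟨m, hm⟩ := L.small U hU
    refine ⟨m + 1, fun r hr => hm _ ((hst m).sml r ?_)⟩
    rw [hs.k]
    exact hr

end Pool.Agent.H91.LP
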